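import Mathlib
import Pool.Agent.V1195.L2Tools

set_option autoImplicit false
open Filter Topology MeasureTheory
open scoped InnerProductSpace ENNReal

namespace Pool.Agent.Results.MP_0ee9ff_an.NormalCarlemanKernel

noncomputable section

open Pool.Agent.V1195.L2Tools

variable {α : Type*} [MeasurableSpace α] {μ : Measure α}

/-- multiplication by the indicator of a measurable set -/
def cut {Y : Set α} (hY : MeasurableSet Y) (f : Lp ℂ 2 μ) : Lp ℂ 2 μ :=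
  ((Lp.memLp f).indicator hY).toLp _

lemma cut_coe {Y : Set α} (hY : MeasurableSet Y) (f : Lp ℂ 2 μ) :
    cut hY f =ᵐ[μ] Y.indicator f := MemLp.coeFn_toLp _

lemma inner_cut {Y : Set α} (hY : MeasurableSet Y) (f g : Lp ℂ 2 μ) :
    ⟪cut hY f, g⟫_ℂ = ⟪f, cut hY g⟫_ℂ := by
  rw [L2.inner_def, L2.inner_def]
  refine integral_congr_ae ?_
  filter_upwards [cut_coe hY f, cut_coe hY g] with x hx hx'
  rw [hx, hx']
  by_cases h : x ∈ Y
  · rw [Set.indicator_of_mem h, Set.indicator_of_mem h]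
  · rw [Set.indicator_of_notMem h, Set.indicator_of_notMem h]; simp

lemma memLp_of {f : α → ℂ} (hm : AEStronglyMeasurable f μ) (hf : ∫⁻ y, ‖f y‖ₑ ^ 2 ∂μ < ∞) :
    MemLp f 2 μ := by
  refine ⟨hm, ?_⟩
  rw [eLpNorm_eq_lintegral_rpow_enorm_toReal (by norm_num) (by norm_num)]
  have h2 : (2 : ℝ≥0∞).toReal = 2 := by norm_num
  rw [h2]
  refine ENNReal.rpow_lt_top_of_nonneg (by norm_num) ?_
  have h3 : ∀ y, ‖f y‖ₑ ^ (2 : ℝ) = ‖f y‖ₑ ^ 2 := fun y => by
    rw [← ENNReal.rpow_natCast]; norm_num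
  simp_rw [h3]
  exact hf.ne

/-- **Main theorem.** The kernel of a bounded normal Carleman operator satisfies, for almost
every `y`, the identity `∫ |ν(x,y)|² dx = ∫ |ν(y,x)|² dx`, and this number is finite. -/
theorem result {α : Type*} [MeasurableSpace α] [MeasurableSpace.CountablyGenerated α]
    (μ : Measure α) [SigmaFinite μ] (N : Lp ℂ 2 μ →L[ℂ] Lp ℂ 2 μ) (ν : α → α → ℂ)
    (hν : AEStronglyMeasurable (Function.uncurry ν) (μ.prod μ))
    (hCar : ∀ᵐ x ∂μ, ∫⁻ y, ‖ν x y‖ₑ ^ 2 ∂μ < ∞)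
    (hker : ∀ f : Lp ℂ 2 μ, N f =ᵐ[μ] fun x => ∫ y, ν x y * f y ∂μ)
    (hN : IsStarNormal N) :
    ∀ᵐ y ∂μ, ∫⁻ x, ‖ν x y‖ₑ ^ 2 ∂μ = ∫⁻ x, ‖ν y x‖ₑ ^ 2 ∂μ ∧
      ∫⁻ x, ‖ν x y‖ₑ ^ 2 ∂μ < ∞ := by
  have : Fact ((2 : ℝ≥0∞) ≠ ∞) := ⟨by norm_num⟩
  obtain ⟨w, b, hb⟩ := exists_hilbertBasis ℂ (Lp ℂ 2 μ)
  have hcount : Countable w := countable_of_orthonormal b.orthonormal
  have hsec : ∀ᵐ x ∂μ, AEStronglyMeasurable (ν x) μ := hν.prodMk_left
  have hmeas : AEMeasurable (Function.uncurry fun x y => ‖ν x y‖ₑ ^ 2) (μ.prod μ) :=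
    hν.enorm.pow_const 2
  have key : ∀ Y : Set α, MeasurableSet Y →
      ∫⁻ y in Y, ∫⁻ x, ‖ν x y‖ₑ ^ 2 ∂μ ∂μ = ∫⁻ y in Y, ∫⁻ x, ‖ν y x‖ₑ ^ 2 ∂μ ∂μ := by
    intro Y hY
    -- first computation
    have h1 : ∑' j, ‖N (cut hY (b j))‖ₑ ^ 2 =
        ∫⁻ x, ∫⁻ y, ‖Y.indicator (ν x) y‖ₑ ^ 2 ∂μ ∂μ := by
      refine sum_sq_kernel b (fun x y => Y.indicator (ν x) y) ?_ (fun j => N (cut hY (b j))) ?_
      · filter_upwards [hsec, hCar] with x hx hx'
        exact (memLp_of hx hx').indicator hY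
      · intro j
        refine (hker _).trans (Eventually.of_forall fun x => ?_)
        refine integral_congr_ae ?_
        filter_upwards [cut_coe hY (b j)] with y hy
        rw [hy]
        by_cases h : y ∈ Y
        · rw [Set.indicator_of_mem h, Set.indicator_of_mem h]
        · rw [Set.indicator_of_notMem h, Set.indicator_of_notMem h]; simp
    -- second computation
    have h2 : ∑' j, ‖cut hY (N (b j))‖ₑ ^ 2 =
        ∫⁻ x, ∫⁻ y, ‖Y.indicator (fun x => ν x y) x‖ₑ ^ 2 ∂μ ∂μ := by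
      refine sum_sq_kernel b (fun x y => Y.indicator (fun x => ν x y) x) ?_
        (fun j => cut hY (N (b j))) ?_
      · filter_upwards [hsec, hCar] with x hx hx'
        by_cases h : x ∈ Y
        · simp_rw [Set.indicator_of_mem h]
          exact memLp_of hx hx'
        · simp_rw [Set.indicator_of_notMem h]
          exact MemLp.zero'
      · intro j
        filter_upwards [cut_coe hY (N (b j)), hker (b j)] with x hx hx'
        rw [hx]
        by_cases h : x ∈ Y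
        · simp_rw [Set.indicator_of_mem h]
          exact hx'
        · simp_rw [Set.indicator_of_notMem h]
          simp
    -- the two sums agree
    have h3 : ∑' j, ‖N (cut hY (b j))‖ₑ ^ 2 = ∑' j, ‖cut hY (N (b j))‖ₑ ^ 2 := by
      have h4 : ∀ f, ‖N f‖ₑ = ‖N.adjoint f‖ₑ := by
        intro f
        rw [← ofReal_norm, ← ofReal_norm,
          ContinuousLinearMap.isStarNormal_iff_norm_eq_adjoint.1 hN f]
      calc ∑' j, ‖N (cut hY (b j))‖ₑ ^ 2 = ∑' j, ‖N.adjoint (cut hY (b j))‖ₑ ^ 2 := by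
            simp_rw [h4]
        _ = ∑' j, ∑' k, ‖⟪N.adjoint (cut hY (b j)), b k⟫_ℂ‖ₑ ^ 2 := by
            simp_rw [parseval b]
        _ = ∑' j, ∑' k, ‖⟪cut hY (N (b k)), b j⟫_ℂ‖ₑ ^ 2 := by
            refine tsum_congr fun j => tsum_congr fun k => ?_
            rw [ContinuousLinearMap.adjoint_inner_left, inner_cut, ← inner_conj_symm]
            congr 1
            rw [← ofReal_norm, ← ofReal_norm, RCLike.norm_conj]
        _ = ∑' k, ∑' j, ‖⟪cut hY (N (b k)), b j⟫_ℂ‖ₑ ^ 2 := ENNReal.tsum_comm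
        _ = ∑' j, ‖cut hY (N (b j))‖ₑ ^ 2 := by
            simp_rw [parseval b]
    -- rewrite as set integrals
    have h5 : ∫⁻ x, ∫⁻ y, ‖Y.indicator (ν x) y‖ₑ ^ 2 ∂μ ∂μ =
        ∫⁻ y in Y, ∫⁻ x, ‖ν x y‖ₑ ^ 2 ∂μ ∂μ := by
      have h6 : ∀ x, ∫⁻ y, ‖Y.indicator (ν x) y‖ₑ ^ 2 ∂μ = ∫⁻ y in Y, ‖ν x y‖ₑ ^ 2 ∂μ := by
        intro x
        rw [← lintegral_indicator hY]
        refine lintegral_congr fun y => ?_
        by_cases h : y ∈ Y
        · rw [Set.indicator_of_mem h, Set.indicator_of_mem h]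
        · rw [Set.indicator_of_notMem h, Set.indicator_of_notMem h]; simp
      simp_rw [h6]
      rw [lintegral_lintegral_swap]
      refine hmeas.mono_measure ?_
      exact Measure.prod_mono le_rfl Measure.restrict_le_self
    have h7 : ∫⁻ x, ∫⁻ y, ‖Y.indicator (fun x => ν x y) x‖ₑ ^ 2 ∂μ ∂μ =
        ∫⁻ y in Y, ∫⁻ x, ‖ν y x‖ₑ ^ 2 ∂μ ∂μ := by
      rw [← lintegral_indicator hY]
      refine lintegral_congr fun x => ?_
      by_cases h : x ∈ Y
      · simp_rw [Set.indicator_of_mem h]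
      · simp_rw [Set.indicator_of_notMem h]; simp
    rw [← h5, ← h7, ← h1, ← h2, h3]
  have hm1 : AEMeasurable (fun y => ∫⁻ x, ‖ν x y‖ₑ ^ 2 ∂μ) μ := by
    have := hmeas.prod_swap
    exact this.lintegral_prod_right'
  have hm2 : AEMeasurable (fun y => ∫⁻ x, ‖ν y x‖ₑ ^ 2 ∂μ) μ :=
    hmeas.lintegral_prod_right'
  have h8 := ae_eq_of_forall_setLIntegral_eq_of_sigmaFinite₀ hm1 hm2 (fun Y hY _ => key Y hY)
  filter_upwards [h8, hCar] with y hy hy'
  exact ⟨hy, by rw [hy]; exact hy'⟩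

end

end Pool.Agent.Results.MP_0ee9ff_an.NormalCarlemanKernel
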